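import Mathlib

namespace Pool.Agent.Results.MP_56aac4_co.Counter

open Finset

/-- `S` is an `n`-tuple `T`-colouring of `G` for `T = {0, ..., r}`: every vertex gets a set of
exactly `n` positive integers, and colours of adjacent vertices differ by a number outside `T`. -/
def IsCol {m : ℕ} (G : SimpleGraph (Fin m)) (r n : ℕ) (S : Fin m → Finset ℤ) : Prop :=
  (∀ x, (S x).card = n) ∧ (∀ x, ∀ a ∈ S x, 0 < a) ∧
    ∀ x y, G.Adj x y → ∀ a ∈ S x, ∀ b ∈ S y, |a - b| ∉ Finset.Icc (0 : ℤ) r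

/-- `S` has span `s`: the largest colour used minus the smallest colour used is `s`. -/
def HasSpan {m : ℕ} (S : Fin m → Finset ℤ) (s : ℤ) : Prop :=
  ∃ lo hi : ℤ, IsLeast {a | ∃ x, a ∈ S x} lo ∧ IsGreatest {a | ∃ x, a ∈ S x} hi ∧ s = hi - lo

/-- `s` is the minimum span of an `n`-tuple `T`-colouring of `G`. -/
def IsSp {m : ℕ} (G : SimpleGraph (Fin m)) (r n : ℕ) (s : ℤ) : Prop :=
  IsLeast {t | ∃ S, IsCol G r n S ∧ HasSpan S t} s

def cls (lo hi : ℕ) : Fin 5 :=
  if 11 ≤ lo then 4 else if 4 ≤ lo then (if hi ≤ 9 then 3 else 1)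
  else if 14 ≤ hi ∧ lo ≤ 2 then 2 else if lo = 0 ∧ hi = 13 then 4 else 0

def nw : Fin 5 → Finset ℤ :=
  ![{1, 2, 3, 4}, {8, 9, 10, 11}, {1, 2, 15, 16}, {6, 7, 8, 9}, {13, 14, 15, 16}]

def far (a b : ℕ) : Bool := Nat.blt (a + 3) b || Nat.blt (b + 3) a

def far4 (a1 a2 a3 a4 b : ℕ) : Bool := far a1 b && far a2 b && far a3 b && far a4 b

def R (c d : Fin 5) : Bool := decide (c + 1 = d) || decide (d + 1 = c)

def inner (a1 a2 a3 a4 : ℕ) : Bool :=
  (List.range 17).all fun b1 => !(far4 a1 a2 a3 a4 b1) ||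
  (List.range 17).all fun b2 => !(decide (b1 < b2) && far4 a1 a2 a3 a4 b2) ||
  (List.range 17).all fun b3 => !(decide (b2 < b3) && far4 a1 a2 a3 a4 b3) ||
  (List.range 17).all fun b4 => !(decide (b3 < b4) && far4 a1 a2 a3 a4 b4) ||
    R (cls a1 a4) (cls b1 b4)

def check (a1 : ℕ) : Bool :=
  (List.range 17).all fun a2 => !(decide (a1 < a2)) ||
  (List.range 17).all fun a3 => !(decide (a2 < a3)) ||
  (List.range 17).all fun a4 => !(decide (a3 < a4)) || inner a1 a2 a3 a4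

theorem check_true (a1 : ℕ) (h : a1 < 17) : check a1 = true := by
  interval_cases a1 <;> decide +kernel

theorem key (a b : Fin 4 → ℕ) (ha : StrictMono a) (hb : StrictMono b) (ha' : ∀ i, a i < 17)
    (hb' : ∀ i, b i < 17) (h : ∀ i j, far (a i) (b j) = true) :
    R (cls (a 0) (a 3)) (cls (b 0) (b 3)) = true := by
  have hc := check_true (a 0) (ha' 0)
  simp only [check, List.all_eq_true, List.mem_range, Bool.or_eq_true, Bool.not_eq_true',
    decide_eq_false_iff_not] at hc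
  have h01 := ha (show (0 : Fin 4) < 1 by decide)
  have h12 := ha (show (1 : Fin 4) < 2 by decide)
  have h23 := ha (show (2 : Fin 4) < 3 by decide)
  have g01 := hb (show (0 : Fin 4) < 1 by decide)
  have g12 := hb (show (1 : Fin 4) < 2 by decide)
  have g23 := hb (show (2 : Fin 4) < 3 by decide)
  have hi : inner (a 0) (a 1) (a 2) (a 3) = true :=
    ((((((hc (a 1) (ha' 1)).resolve_left (fun t => t h01)) (a 2)
      (ha' 2)).resolve_left (fun t => t h12)) (a 3) (ha' 3))).resolve_left (fun t => t h23)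
  have hf : ∀ j, far4 (a 0) (a 1) (a 2) (a 3) (b j) = true := by
    intro j
    simp [far4, h]
  simp only [inner, List.all_eq_true, List.mem_range, Bool.or_eq_true, Bool.not_eq_true'] at hi
  have i1 := (hi (b 0) (hb' 0)).resolve_left (by simp [hf])
  have i2 := (i1 (b 1) (hb' 1)).resolve_left (by simp [hf, g01])
  have i3 := (i2 (b 2) (hb' 2)).resolve_left (by simp [hf, g12])
  exact (i3 (b 3) (hb' 3)).resolve_left (by simp [hf, g23])

theorem nw_ok : ∀ c d : Fin 5, R c d = true → ∀ a ∈ nw c, ∀ b ∈ nw d,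
    |a - b| ∉ Finset.Icc (0 : ℤ) (3 : ℕ) := by decide

theorem nw_card : ∀ c, (nw c).card = 4 := by decide

theorem nw_mem : ∀ c, ∀ a ∈ nw c, 0 < a ∧ a ≤ 16 := by decide

theorem no16 {m : ℕ} (G : SimpleGraph (Fin m)) : ¬ IsSp G 3 4 16 := by
  rintro ⟨⟨S, ⟨hc, -, he⟩, lo, hi, hlo, hhi, hs⟩, hmin⟩
  let e : ∀ x, Fin 4 ↪o ℤ := fun x => (S x).orderEmbOfFin (hc x)
  have hm : ∀ x i, e x i ∈ S x := fun x i => Finset.orderEmbOfFin_mem _ _ _
  have h1 : ∀ x i, lo ≤ e x i := fun x i => hlo.2 ⟨x, hm x i⟩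
  have h2 : ∀ x i, e x i ≤ hi := fun x i => hhi.2 ⟨x, hm x i⟩
  let a : Fin m → Fin 4 → ℕ := fun x i => (e x i - lo).toNat
  have ha : ∀ x i, (a x i : ℤ) = e x i - lo := fun x i => Int.toNat_of_nonneg (by
    have := h1 x i
    omega)
  have hmono : ∀ x, StrictMono (a x) := by
    intro x i j hij
    have := (e x).strictMono hij
    have := ha x i
    have := ha x j
    omega
  have hlt : ∀ x i, a x i < 17 := by
    intro x i
    have := ha x i
    have := h2 x i
    omega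
  let S' : Fin m → Finset ℤ := fun x => nw (cls (a x 0) (a x 3))
  have hcol : IsCol G 3 4 S' := by
    refine ⟨fun x => nw_card _, fun x b hb => (nw_mem _ b hb).1, fun x y hxy => ?_⟩
    refine nw_ok _ _ (key (a x) (a y) (hmono x) (hmono y) (hlt x) (hlt y) ?_)
    intro i j
    have h := he x y hxy _ (hm x i) _ (hm y j)
    have := ha x i
    have := ha y j
    simp only [Finset.mem_Icc, abs_nonneg, true_and, not_le] at h
    simp only [far, Bool.or_eq_true, Nat.blt_eq]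
    rcases lt_abs.1 h with h | h
    · right; omega
    · left; omega
  obtain ⟨x0, -⟩ := hlo.1
  have hfin : ({b | ∃ x, b ∈ S' x} : Set ℤ).Finite :=
    (Set.finite_Icc (0 : ℤ) 16).subset (by
      rintro b ⟨x, hb⟩
      have := nw_mem _ b hb
      exact ⟨by omega, this.2⟩)
  have hne : ({b | ∃ x, b ∈ S' x} : Set ℤ).Nonempty := by
    obtain ⟨b, hb⟩ := Finset.card_pos.1 (show 0 < (S' x0).card by rw [hcol.1 x0]; norm_num)
    exact ⟨b, x0, hb⟩
  obtain ⟨l, hl, hl'⟩ := Set.exists_min_image _ id hfin hne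
  obtain ⟨u, hu, hu'⟩ := Set.exists_max_image _ id hfin hne
  have := hmin ⟨S', hcol, l, u, ⟨hl, fun b hb => hl' b hb⟩, ⟨hu, fun b hb => hu' b hb⟩, rfl⟩
  obtain ⟨x, hx⟩ := hl
  obtain ⟨y, hy⟩ := hu
  have := nw_mem _ _ hx
  have := nw_mem _ _ hy
  omega

theorem result :
    ¬ ∀ (r n k : ℕ) (s : ℤ), 1 ≤ n → 2 ≤ k →
      ((r : ℤ) + 1) * (k - 1) + 2 * (n - 1) ≤ s → s ≤ ((n : ℤ) + r) * k - (r + 1) →
      ∃ (m : ℕ) (G : SimpleGraph (Fin m)), G.chromaticNumber = k ∧ IsSp G r n s := by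
  intro h
  obtain ⟨m, G, -, hG⟩ := h 3 4 3 16 (by norm_num) (by norm_num) (by norm_num) (by norm_num)
  exact no16 G hG

end Pool.Agent.Results.MP_56aac4_co.Counter
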